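import Mathlib
import Pool.Agent.Y16.AF.StmP

/-!
# AF-ABS: the abstract one loop lemma
-/

set_option autoImplicit false

open MeasureTheory Matrix
open scoped Matrix.Norms.Frobenius Topology

namespace Pool.Agent.Y220.AF

open Pool.Agent.Y16.AF

section basic

variable {Ω : Type} [TopologicalSpace Ω] [CompactSpace Ω] [MeasurableSpace Ω]
  [OpensMeasurableSpace Ω] (P : Measure Ω) [IsProbabilityMeasure P]

theorem integ (f : C(Ω, ℝ)) : Integrable (fun x => f x) P :=
  f.continuous.integrable_of_hasCompactSupport (HasCompactSupport.of_compactSpace _)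

/-- The expectation as a linear form. -/
noncomputable def EE : C(Ω, ℝ) →ₗ[ℝ] ℝ where
  toFun f := ∫ x, f x ∂P
  map_add' f g := integral_add (integ P f) (integ P g)
  map_smul' c f := integral_const_mul c _

theorem EE_apply (f : C(Ω, ℝ)) : EE P f = ∫ x, f x ∂P := rfl

theorem EE_one : EE P 1 = 1 := by
  rw [EE_apply]
  simp

theorem EE_abs {r f : C(Ω, ℝ)} {c t : ℝ} {p : ℕ} (hc : 0 ≤ c) (hf : ∀ x, |f x| ≤ c * r x ^ p)
    (hr : EE P (r ^ p) ≤ t) : |EE P f| ≤ c * t := by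
  have h1 : |EE P f| ≤ ∫ x, c * (r ^ p) x ∂P := by
    rw [EE_apply]
    refine (abs_integral_le_integral_abs).trans ?_
    refine integral_mono (integ P f).abs ((integ P (r ^ p)).const_mul c) fun x => ?_
    exact hf x
  refine h1.trans ?_
  rw [integral_const_mul]
  exact mul_le_mul_of_nonneg_left hr hc

end basic

section alg

variable {ι : Type} [Fintype ι] {X : ℝ}

theorem sum_le (hn : ((Fintype.card ι : ℕ) : ℝ) ≤ X) {f : ι → ℝ} {c : ℝ}
    (hc : 0 ≤ c) (h : ∀ i, |f i| ≤ c) : |∑ i, f i| ≤ X * c := by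
  calc |∑ i, f i| ≤ ∑ i, |f i| := Finset.abs_sum_le_sum_abs _ _
    _ ≤ ∑ _i : ι, c := Finset.sum_le_sum fun i _ => h i
    _ = (Fintype.card ι : ℝ) * c := by rw [Finset.sum_const, nsmul_eq_mul, Finset.card_univ]
    _ ≤ X * c := by gcongr

theorem sum2_le (hn : ((Fintype.card ι : ℕ) : ℝ) ≤ X) (hX : 0 ≤ X) {Q y : ι → ι → ℝ} {c : ℝ}
    (hc : 0 ≤ c) (hQ : ∀ i j, |Q i j| ≤ X) (h : ∀ i j, |y i j| ≤ c) :
    |∑ i, ∑ j, Q i j * y i j| ≤ X ^ 3 * c := by
  have h1 : |∑ i, ∑ j, Q i j * y i j| ≤ X * (X * (X * c)) :=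
    sum_le hn (by positivity) fun i => sum_le hn (by positivity) fun j => by
      rw [abs_mul]
      exact mul_le_mul (hQ i j) (h i j) (abs_nonneg _) hX
  refine h1.trans (le_of_eq (by ring))

theorem sum4_le (hn : ((Fintype.card ι : ℕ) : ℝ) ≤ X) (hX : 0 ≤ X) {Q : ι → ι → ℝ}
    {y : ι → ι → ι → ι → ℝ} {c : ℝ}
    (hc : 0 ≤ c) (hQ : ∀ i j, |Q i j| ≤ X) (h : ∀ i j k l, |y i j k l| ≤ c) :
    |∑ i, ∑ j, ∑ k, ∑ l, Q i j * Q k l * y i j k l| ≤ X ^ 6 * c := by
  have h1 : |∑ i, ∑ j, ∑ k, ∑ l, Q i j * Q k l * y i j k l| ≤ X * (X * (X * (X * (X * X * c)))) :=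
    sum_le hn (by positivity) fun i => sum_le hn (by positivity) fun j =>
      sum_le hn (by positivity) fun k => sum_le hn (by positivity) fun l => by
      rw [abs_mul, abs_mul]
      exact mul_le_mul (mul_le_mul (hQ i j) (hQ k l) (abs_nonneg _) hX) (h i j k l)
        (abs_nonneg _) (by positivity)
  refine h1.trans (le_of_eq (by ring))

variable [DecidableEq ι]

theorem inv_bd (hn : ((Fintype.card ι : ℕ) : ℝ) ≤ X) (hX : 0 ≤ X) {H K : Matrix ι ι ℝ}
    (hKH : K * H = 1) (hK : ∀ i j, |K i j| ≤ X) {y z : ι → ℝ} {ε : ℝ} (hε : 0 ≤ ε)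
    (h : ∀ i, |∑ p, H i p * y p - z i| ≤ ε) (q : ι) :
    |y q - ∑ i, K q i * z i| ≤ X ^ 2 * ε := by
  have e1 : y q = ∑ i, K q i * ∑ p, H i p * y p := by
    have h1 : K.mulVec (H.mulVec y) = y := by
      rw [Matrix.mulVec_mulVec, hKH, Matrix.one_mulVec]
    exact (congrFun h1 q).symm
  have e2 : y q - ∑ i, K q i * z i = ∑ i, K q i * (∑ p, H i p * y p - z i) := by
    rw [e1, ← Finset.sum_sub_distrib]
    refine Finset.sum_congr rfl fun i _ => ?_
    ring
  rw [e2]
  have h1 : |∑ i, K q i * (∑ p, H i p * y p - z i)| ≤ X * (X * ε) :=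
    sum_le hn (by positivity) fun i => by
      rw [abs_mul]
      exact mul_le_mul (hK _ _) (h i) (abs_nonneg _) hX
  exact h1.trans (le_of_eq (by ring))

omit [DecidableEq ι] in
theorem trace_KR (K R : Matrix ι ι ℝ) (hR : Rᵀ = R) :
    trace (K * R) = ∑ i, ∑ j, R i j * K i j := by
  unfold Matrix.trace
  refine Finset.sum_congr rfl fun i _ => ?_
  rw [Matrix.diag_apply, Matrix.mul_apply]
  refine Finset.sum_congr rfl fun j _ => ?_
  have : R j i = R i j := by
    conv_lhs => rw [← hR]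
    rfl
  rw [this, mul_comm]

omit [DecidableEq ι] in
theorem trace_4 (K Q : Matrix ι ι ℝ) (hK : Kᵀ = K) (hQ : Qᵀ = Q) :
    trace (K * Q * (K * Q)) = ∑ i, ∑ j, ∑ k, ∑ l, Q i j * Q k l * (K i k * K j l) := by
  have hK' : ∀ i j, K j i = K i j := fun i j => by
    conv_lhs => rw [← hK]
    rfl
  have hQ' : ∀ i j, Q j i = Q i j := fun i j => by
    conv_lhs => rw [← hQ]
    rfl
  unfold Matrix.trace
  simp only [Matrix.diag_apply, Matrix.mul_apply, Finset.sum_mul_sum]
  -- ∑ k, ∑ j, ∑ i, ∑ l, K k i * Q i j * (K j l * Q l k)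
  have e1 : ∀ k, ∑ j, ∑ i, ∑ l, K k i * Q i j * (K j l * Q l k) =
      ∑ i, ∑ j, ∑ l, Q i j * Q k l * (K i k * K j l) := by
    intro k
    rw [Finset.sum_comm]
    refine Finset.sum_congr rfl fun i _ => Finset.sum_congr rfl fun j _ =>
      Finset.sum_congr rfl fun l _ => ?_
    rw [hK' i k, hQ' k l]
    ring
  simp only [e1]
  rw [Finset.sum_comm]
  refine Finset.sum_congr rfl fun i _ => ?_
  rw [Finset.sum_comm]

theorem wick (K Q : Matrix ι ι ℝ) (hK : Kᵀ = K) (hQ : Qᵀ = Q) :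
    ∑ i, ∑ j, ∑ k, ∑ l, Q i j * Q k l * (K i j * K k l + K i k * K j l + K i l * K j k) =
      (∑ i, ∑ j, Q i j * K i j) ^ 2 + 2 * trace (K * Q * (K * Q)) := by
  have hQ' : ∀ i j, Q j i = Q i j := fun i j => by
    conv_lhs => rw [← hQ]
    rfl
  have e1 : (∑ i, ∑ j, Q i j * K i j) ^ 2 = ∑ i, ∑ j, ∑ k, ∑ l, Q i j * Q k l * (K i j * K k l) := by
    rw [pow_two, Finset.sum_mul]
    refine Finset.sum_congr rfl fun i _ => ?_
    rw [Finset.sum_mul]
    refine Finset.sum_congr rfl fun j _ => ?_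
    rw [Finset.mul_sum]
    refine Finset.sum_congr rfl fun k _ => ?_
    rw [Finset.mul_sum]
    refine Finset.sum_congr rfl fun l _ => ?_
    ring
  have e2 : ∑ i, ∑ j, ∑ k, ∑ l, Q i j * Q k l * (K i l * K j k) = trace (K * Q * (K * Q)) := by
    rw [trace_4 K Q hK hQ]
    refine Finset.sum_congr rfl fun i _ => Finset.sum_congr rfl fun j _ => ?_
    rw [Finset.sum_comm]
    refine Finset.sum_congr rfl fun k _ => Finset.sum_congr rfl fun l _ => ?_
    rw [hQ' k l]
  have e3 := trace_4 K Q hK hQ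
  rw [e1, two_mul]
  conv_rhs => rw [← e2]
  rw [e2]
  conv_rhs => 
    enter [2, 1]
    rw [← e2]
  rw [e3]
  simp only [← Finset.sum_add_distrib]
  refine Finset.sum_congr rfl fun i _ => Finset.sum_congr rfl fun j _ =>
      Finset.sum_congr rfl fun k _ => Finset.sum_congr rfl fun l _ => ?_
  ring

end alg



section core

variable {Ω : Type} [TopologicalSpace Ω] [CompactSpace Ω] [MeasurableSpace Ω]
  [OpensMeasurableSpace Ω] (P : Measure Ω) [IsProbabilityMeasure P]
  {ι : Type} [Fintype ι] [DecidableEq ι]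

theorem tri (a b : ℝ) : |a - b| ≤ |a| + |b| := by
  have := norm_sub_le a b
  simpa [Real.norm_eq_abs] using this

theorem core (H K Q R : Matrix ι ι ℝ) (A g : ι → C(Ω, ℝ)) (dA : ι → ι → C(Ω, ℝ))
    (r s1 s2 : C(Ω, ℝ)) (β X δ s0 : ℝ) (hX : 1 ≤ X) (hδ0 : 0 ≤ δ) (hδ1 : δ ≤ 1) (hβ : 0 ≤ β)
    (hβδ : β * δ ^ 2 = 1) (hn : ((Fintype.card ι : ℕ) : ℝ) ≤ X) (hKH : K * H = 1) (hKs : Kᵀ = K)
    (hK : ∀ i j, |K i j| ≤ X) (hQ : ∀ i j, |Q i j| ≤ X) (hR : ∀ i j, |R i j| ≤ X) (hQs : Qᵀ = Q)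
    (hRs : Rᵀ = R) (hr0 : ∀ x, 0 ≤ r x)
    (hr : ∀ p : ℕ, p ≤ 8 → EE P (r ^ p) ≤ (X * δ) ^ p)
    (hA : ∀ i x, |A i x| ≤ r x) (hg : ∀ i x, |g i x - ∑ j, H i j * A j x| ≤ X * r x ^ 2)
    (hdA : ∀ i j x, |dA i j x - (if i = j then 1 else 0)| ≤ X * r x)
    (h1 : ∀ i j, EE P (dA i j) = β * EE P (A j * g i))
    (h3 : ∀ i j k l, EE P (dA i j * A k * A l + A j * dA i k * A l + A j * A k * dA i l) =
      β * EE P (A j * A k * A l * g i))
    (hs1 : ∀ x, |s1 x - 1 / 2 * ∑ i, ∑ j, Q i j * (A i x * A j x)| ≤ X * r x ^ 3)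
    (hs2 : ∀ x, |s2 x - s0 - 1 / 2 * ∑ i, ∑ j, R i j * (A i x * A j x)| ≤ X * r x ^ 3) :
    |β * EE P s2 - β ^ 2 * (EE P (s1 ^ 2) - (EE P s1) ^ 2) -
      (β * s0 + 1 / 2 * trace (K * R) - 1 / 2 * trace (K * Q * (K * Q)))| ≤
      10 * X ^ 14 * δ := by
  have hX0 : 0 ≤ X := by linarith
  have pw : ∀ {a b : ℕ}, a ≤ b → X ^ a * δ ≤ X ^ b * δ := fun h =>
    mul_le_mul_of_nonneg_right (pow_le_pow_right₀ hX h) hδ0
  have Eb : ∀ (f : C(Ω, ℝ)) (c : ℝ) (p : ℕ), p ≤ 8 → 0 ≤ c → (∀ x, |f x| ≤ c * r x ^ p) →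
      |EE P f| ≤ c * (X * δ) ^ p :=
    fun f c p hp hc hf => EE_abs P hc hf (hr p hp)
  have habs : ∀ y : ℝ, |β * y| = β * |y| := fun y => by rw [abs_mul, abs_of_nonneg hβ]
  have habs2 : ∀ y : ℝ, |β ^ 2 * y| = β ^ 2 * |y| := fun y => by
    rw [abs_mul, abs_of_nonneg (by positivity)]
  -- remainders
  set G : ι → C(Ω, ℝ) := fun i => g i - ∑ j, H i j • A j with hG
  have hGb : ∀ i x, |G i x| ≤ X * r x ^ 2 := by
    intro i x
    have h := hg i x
    have e : G i x = g i x - ∑ j, H i j * A j x := by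
      simp [hG]
    rw [e]
    exact h
  set D : ι → ι → C(Ω, ℝ) := fun i j => dA i j - (if i = j then (1 : ℝ) else 0) • (1 : C(Ω, ℝ)) with hD
  have hDx : ∀ i j x, D i j x = dA i j x - (if i = j then 1 else 0) := by
    intro i j x
    simp only [hD, ContinuousMap.sub_apply, ContinuousMap.smul_apply, ContinuousMap.one_apply,
      smul_eq_mul, mul_one]
  have hDb : ∀ i j x, |D i j x| ≤ X * r x := by
    intro i j x
    rw [hDx]
    exact hdA i j x
  have hgi : ∀ i, g i = ∑ j, H i j • A j + G i := by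
    intro i
    simp only [hG]
    abel
  have hdi : ∀ i j, dA i j = (if i = j then (1 : ℝ) else 0) • (1 : C(Ω, ℝ)) + D i j := by
    intro i j
    simp only [hD]
    abel
  set a : ι → ι → ℝ := fun i j => β * EE P (A i * A j) with ha
  set b : ι → ι → ι → ι → ℝ := fun i j k l => β ^ 2 * EE P (A i * A j * A k * A l) with hb
  have hAA : ∀ i j x, |A i x * A j x| ≤ r x ^ 2 := by
    intro i j x
    rw [abs_mul, pow_two]
    exact mul_le_mul (hA i x) (hA j x) (abs_nonneg _) (hr0 x)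
  have hAAA : ∀ i j k x, |A i x * A j x * A k x| ≤ r x ^ 3 := by
    intro i j k x
    rw [abs_mul, pow_succ]
    exact mul_le_mul (hAA i j x) (hA k x) (abs_nonneg _) (by positivity)
  -- second moments
  have B1 : ∀ i j, |∑ k, H i k * a k j - (if i = j then 1 else 0)| ≤ 2 * X ^ 4 * δ := by
    intro i j
    have e1 : A j * g i = ∑ k, H i k • (A k * A j) + A j * G i := by
      rw [hgi i, mul_add, Finset.mul_sum]
      congr 1
      refine Finset.sum_congr rfl fun k _ => ?_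
      rw [mul_smul_comm, mul_comm]
    have e2 : EE P (A j * g i) = ∑ k, H i k * EE P (A k * A j) + EE P (A j * G i) := by
      rw [e1, map_add, map_sum]
      simp only [map_smul, smul_eq_mul]
    have e3 : EE P (dA i j) = (if i = j then 1 else 0) + EE P (D i j) := by
      rw [hdi i j, map_add, map_smul, EE_one, smul_eq_mul, mul_one]
    have b1 := Eb (A j * G i) X 3 (by norm_num) hX0 (fun x => by
      rw [ContinuousMap.mul_apply, abs_mul]
      calc |A j x| * |G i x| ≤ r x * (X * r x ^ 2) :=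
            mul_le_mul (hA j x) (hGb i x) (abs_nonneg _) (hr0 x)
        _ = X * r x ^ 3 := by ring)
    have b2 := Eb (D i j) X 1 (by norm_num) hX0 (fun x => by rw [pow_one]; exact hDb i j x)
    have e4 : ∑ k, H i k * a k j = β * ∑ k, H i k * EE P (A k * A j) := by
      rw [Finset.mul_sum]
      refine Finset.sum_congr rfl fun k _ => ?_
      simp only [ha]
      ring
    have e5 : ∑ k, H i k * a k j - (if i = j then 1 else 0) =
        EE P (D i j) - β * EE P (A j * G i) := by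
      rw [e4]
      have h := h1 i j
      rw [e2, e3] at h
      linear_combination (-1 : ℝ) * h
    rw [e5]
    calc |EE P (D i j) - β * EE P (A j * G i)| ≤ |EE P (D i j)| + |β * EE P (A j * G i)| := tri _ _
      _ ≤ X * (X * δ) ^ 1 + β * (X * (X * δ) ^ 3) := by
          rw [habs]
          gcongr
      _ = X ^ 2 * δ + X ^ 4 * δ * (β * δ ^ 2) := by ring
      _ ≤ X ^ 4 * δ + X ^ 4 * δ := by
          rw [hβδ, mul_one]
          have := pw (show 2 ≤ 4 by norm_num)
          linarith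
      _ = 2 * X ^ 4 * δ := by ring
  have B2 : ∀ i j, |a i j - K i j| ≤ 2 * X ^ 6 * δ := by
    intro i j
    have h := inv_bd hn hX0 hKH hK (y := fun k => a k j) (z := fun k => if k = j then 1 else 0)
      (ε := 2 * X ^ 4 * δ) (by positivity) (fun k => B1 k j) i
    have e : ∑ k, K i k * (if k = j then (1 : ℝ) else 0) = K i j := by simp
    rw [e] at h
    refine h.trans (le_of_eq (by ring))
  have B2' : ∀ i j, |a i j| ≤ X ^ 2 := by
    intro i j
    have b1 := Eb (A i * A j) 1 2 (by norm_num) (by norm_num) (fun x => by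
      rw [ContinuousMap.mul_apply, one_mul]
      exact hAA i j x)
    simp only [ha]
    rw [habs]
    calc β * |EE P (A i * A j)| ≤ β * (1 * (X * δ) ^ 2) := by gcongr
      _ = X ^ 2 * (β * δ ^ 2) := by ring
      _ = X ^ 2 := by rw [hβδ, mul_one]
  -- fourth moments
  have B3 : ∀ i j k l, |∑ p, H i p * b p j k l - ((if i = j then 1 else 0) * a k l +
      (if i = k then 1 else 0) * a j l + (if i = l then 1 else 0) * a j k)| ≤ 4 * X ^ 6 * δ := by
    intro i j k l
    set T : C(Ω, ℝ) := D i j * A k * A l + A j * D i k * A l + A j * A k * D i l with hT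
    have e1 : A j * A k * A l * g i = ∑ p, H i p • (A p * A j * A k * A l) +
        A j * A k * A l * G i := by
      rw [hgi i, mul_add, Finset.mul_sum]
      congr 1
      refine Finset.sum_congr rfl fun p _ => ?_
      rw [mul_smul_comm]
      congr 1
      ring
    have e2 : EE P (A j * A k * A l * g i) =
        ∑ p, H i p * EE P (A p * A j * A k * A l) + EE P (A j * A k * A l * G i) := by
      rw [e1, map_add, map_sum]
      simp only [map_smul, smul_eq_mul]
    have e3 : dA i j * A k * A l + A j * dA i k * A l + A j * A k * dA i l =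
        (if i = j then (1 : ℝ) else 0) • (A k * A l) + (if i = k then (1 : ℝ) else 0) • (A j * A l) +
        (if i = l then (1 : ℝ) else 0) • (A j * A k) + T := by
      ext x
      simp only [hT, ContinuousMap.add_apply, ContinuousMap.mul_apply, ContinuousMap.smul_apply,
        hDx, smul_eq_mul]
      ring
    have e4 : EE P (dA i j * A k * A l + A j * dA i k * A l + A j * A k * dA i l) =
        (if i = j then 1 else 0) * EE P (A k * A l) + (if i = k then 1 else 0) * EE P (A j * A l) +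
        (if i = l then 1 else 0) * EE P (A j * A k) + EE P T := by
      rw [e3, map_add, map_add, map_add, map_smul, map_smul, map_smul, smul_eq_mul, smul_eq_mul,
        smul_eq_mul]
    have b1 := Eb (A j * A k * A l * G i) X 5 (by norm_num) hX0 (fun x => by
      rw [ContinuousMap.mul_apply, ContinuousMap.mul_apply, ContinuousMap.mul_apply, abs_mul]
      calc |A j x * A k x * A l x| * |G i x| ≤ r x ^ 3 * (X * r x ^ 2) :=
            mul_le_mul (hAAA j k l x) (hGb i x) (abs_nonneg _) (by have := hr0 x; positivity)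
        _ = X * r x ^ 5 := by ring)
    have b2 := Eb T (3 * X) 3 (by norm_num) (by positivity) (fun x => by
      have t1 : |D i j x * (A k x * A l x)| ≤ X * r x * r x ^ 2 := by
        rw [abs_mul]
        exact mul_le_mul (hDb i j x) (hAA k l x) (abs_nonneg _) (by have := hr0 x; positivity)
      have t2 : |D i k x * (A j x * A l x)| ≤ X * r x * r x ^ 2 := by
        rw [abs_mul]
        exact mul_le_mul (hDb i k x) (hAA j l x) (abs_nonneg _) (by have := hr0 x; positivity)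
      have t3 : |D i l x * (A j x * A k x)| ≤ X * r x * r x ^ 2 := by
        rw [abs_mul]
        exact mul_le_mul (hDb i l x) (hAA j k x) (abs_nonneg _) (by have := hr0 x; positivity)
      have e : T x = D i j x * (A k x * A l x) + D i k x * (A j x * A l x) +
          D i l x * (A j x * A k x) := by
        simp only [hT, ContinuousMap.add_apply, ContinuousMap.mul_apply]
        ring
      rw [e]
      refine (abs_add_three _ _ _).trans ?_
      calc _ ≤ X * r x * r x ^ 2 + X * r x * r x ^ 2 + X * r x * r x ^ 2 := by gcongr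
        _ = 3 * X * r x ^ 3 := by ring)
    have e5 : ∑ p, H i p * b p j k l = β ^ 2 * ∑ p, H i p * EE P (A p * A j * A k * A l) := by
      rw [Finset.mul_sum]
      refine Finset.sum_congr rfl fun p _ => ?_
      simp only [hb]
      ring
    have e6 : ∑ p, H i p * b p j k l - ((if i = j then 1 else 0) * a k l +
        (if i = k then 1 else 0) * a j l + (if i = l then 1 else 0) * a j k) =
        β * EE P T - β ^ 2 * EE P (A j * A k * A l * G i) := by
      rw [e5]
      have h := h3 i j k l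
      rw [e2, e4] at h
      simp only [ha]
      linear_combination (-β) * h
    rw [e6]
    calc |β * EE P T - β ^ 2 * EE P (A j * A k * A l * G i)| ≤
          |β * EE P T| + |β ^ 2 * EE P (A j * A k * A l * G i)| := tri _ _
      _ ≤ β * (3 * X * (X * δ) ^ 3) + β ^ 2 * (X * (X * δ) ^ 5) := by
          rw [habs, habs2]
          gcongr
      _ = 3 * (X ^ 4 * δ) * (β * δ ^ 2) + X ^ 6 * δ * (β * δ ^ 2) ^ 2 := by ring
      _ ≤ 3 * (X ^ 6 * δ) + X ^ 6 * δ := by
          rw [hβδ, mul_one, one_pow, mul_one]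
          have := pw (show 4 ≤ 6 by norm_num)
          linarith
      _ = 4 * X ^ 6 * δ := by ring
  have B4 : ∀ q j k l, |b q j k l - (K q j * a k l + K q k * a j l + K q l * a j k)| ≤
      4 * X ^ 8 * δ := by
    intro q j k l
    have h := inv_bd hn hX0 hKH hK (y := fun p => b p j k l)
      (z := fun i => (if i = j then 1 else 0) * a k l +
      (if i = k then 1 else 0) * a j l + (if i = l then 1 else 0) * a j k)
      (ε := 4 * X ^ 6 * δ) (by positivity) (fun i => B3 i j k l) q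
    have e : ∑ i, K q i * ((if i = j then (1 : ℝ) else 0) * a k l +
      (if i = k then (1 : ℝ) else 0) * a j l + (if i = l then (1 : ℝ) else 0) * a j k) =
        K q j * a k l + K q k * a j l + K q l * a j k := by
      simp only [mul_add, Finset.sum_add_distrib, ← mul_assoc, ← Finset.sum_mul]
      simp
    rw [e] at h
    refine h.trans (le_of_eq (by ring))
  have B5 : ∀ q j k l, |b q j k l - (K q j * K k l + K q k * K j l + K q l * K j k)| ≤
      10 * X ^ 8 * δ := by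
    intro q j k l
    have t : ∀ (u : ℝ) (i j : ι), |u| ≤ X → |u * (a i j - K i j)| ≤ 2 * X ^ 7 * δ := by
      intro u i j hu
      rw [abs_mul]
      calc |u| * |a i j - K i j| ≤ X * (2 * X ^ 6 * δ) :=
            mul_le_mul hu (B2 i j) (abs_nonneg _) hX0
        _ = 2 * X ^ 7 * δ := by ring
    have t1 := abs_le.1 (t (K q j) k l (hK _ _))
    have t2 := abs_le.1 (t (K q k) j l (hK _ _))
    have t3 := abs_le.1 (t (K q l) j k (hK _ _))
    have t4 := abs_le.1 (B4 q j k l)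
    have t5 := pw (show 7 ≤ 8 by norm_num)
    rw [abs_le]
    constructor <;> nlinarith [t1.1, t1.2, t2.1, t2.2, t3.1, t3.2, t4.1, t4.2]
  -- quadratic forms
  have hquad : ∀ (S : Matrix ι ι ℝ), β * EE P ((1 / 2 : ℝ) • ∑ i, ∑ j, S i j • (A i * A j)) =
      1 / 2 * ∑ i, ∑ j, S i j * a i j := by
    intro S
    rw [map_smul, map_sum]
    simp only [map_sum, map_smul, smul_eq_mul, ha, Finset.mul_sum]
    refine Finset.sum_congr rfl fun i _ => Finset.sum_congr rfl fun j _ => ?_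
    ring
  have hqx : ∀ (S : Matrix ι ι ℝ) (x : Ω), ((1 / 2 : ℝ) • ∑ i, ∑ j, S i j • (A i * A j) : C(Ω, ℝ)) x =
      1 / 2 * ∑ i, ∑ j, S i j * (A i x * A j x) := by
    intro S x
    simp only [ContinuousMap.smul_apply, ContinuousMap.sum_apply, ContinuousMap.mul_apply,
      smul_eq_mul]
  have hqd : ∀ (S : Matrix ι ι ℝ), (∀ i j, |S i j| ≤ X) →
      |1 / 2 * ∑ i, ∑ j, S i j * a i j - 1 / 2 * ∑ i, ∑ j, S i j * K i j| ≤ X ^ 9 * δ := by
    intro S hS
    have h := sum2_le hn hX0 (Q := S) (y := fun i j => a i j - K i j) (c := 2 * X ^ 6 * δ)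
      (by positivity) hS B2
    have e : ∑ i, ∑ j, S i j * (a i j - K i j) = ∑ i, ∑ j, S i j * a i j - ∑ i, ∑ j, S i j * K i j := by
      simp only [mul_sub, Finset.sum_sub_distrib]
    rw [e] at h
    rw [← mul_sub, abs_mul, abs_of_pos (by norm_num : (0 : ℝ) < 1 / 2)]
    calc 1 / 2 * |∑ i, ∑ j, S i j * a i j - ∑ i, ∑ j, S i j * K i j| ≤
          1 / 2 * (X ^ 3 * (2 * X ^ 6 * δ)) := by gcongr
      _ = X ^ 9 * δ := by ring
  set q : C(Ω, ℝ) := (1 / 2 : ℝ) • ∑ i, ∑ j, Q i j • (A i * A j) with hq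
  have hqb : ∀ x, |q x| ≤ 1 / 2 * X ^ 3 * r x ^ 2 := by
    intro x
    rw [hqx Q x, abs_mul, abs_of_pos (by norm_num : (0 : ℝ) < 1 / 2)]
    have h := sum2_le hn hX0 (Q := Q) (y := fun i j => A i x * A j x) (c := r x ^ 2)
      (by positivity) hQ (fun i j => hAA i j x)
    calc 1 / 2 * |∑ i, ∑ j, Q i j * (A i x * A j x)| ≤ 1 / 2 * (X ^ 3 * r x ^ 2) := by gcongr
      _ = _ := by ring
  set τ : ℝ := 1 / 2 * ∑ i, ∑ j, Q i j * K i j with hτ
  have B6 : |β * EE P q - τ| ≤ X ^ 9 * δ := by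
    rw [hquad Q]
    exact hqd Q hQ
  have hq2 : q ^ 2 = (1 / 4 : ℝ) • ∑ i, ∑ j, ∑ k, ∑ l, (Q i j * Q k l) • (A i * A j * A k * A l) := by
    ext x
    rw [ContinuousMap.pow_apply, hqx Q x]
    simp only [ContinuousMap.smul_apply, ContinuousMap.sum_apply, ContinuousMap.mul_apply,
      smul_eq_mul]
    have e : (∑ i, ∑ j, Q i j * (A i x * A j x)) ^ 2 =
        ∑ i, ∑ j, ∑ k, ∑ l, Q i j * Q k l * (A i x * A j x * A k x * A l x) := by
      rw [pow_two, Finset.sum_mul]
      refine Finset.sum_congr rfl fun i _ => ?_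
      rw [Finset.sum_mul]
      refine Finset.sum_congr rfl fun j _ => ?_
      rw [Finset.mul_sum]
      refine Finset.sum_congr rfl fun k _ => ?_
      rw [Finset.mul_sum]
      refine Finset.sum_congr rfl fun l _ => ?_
      ring
    rw [mul_pow, e]
    norm_num
  have B7 : |β ^ 2 * EE P (q ^ 2) - (τ ^ 2 + 1 / 2 * trace (K * Q * (K * Q)))| ≤ 3 * X ^ 14 * δ := by
    have e1 : β ^ 2 * EE P (q ^ 2) = 1 / 4 * ∑ i, ∑ j, ∑ k, ∑ l, Q i j * Q k l * b i j k l := by
      rw [hq2, map_smul, map_sum]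
      simp only [map_sum, map_smul, smul_eq_mul, hb, Finset.mul_sum]
      refine Finset.sum_congr rfl fun i _ => Finset.sum_congr rfl fun j _ =>
        Finset.sum_congr rfl fun k _ => Finset.sum_congr rfl fun l _ => ?_
      ring
    have e2 : τ ^ 2 + 1 / 2 * trace (K * Q * (K * Q)) = 1 / 4 * ∑ i, ∑ j, ∑ k, ∑ l,
        Q i j * Q k l * (K i j * K k l + K i k * K j l + K i l * K j k) := by
      rw [wick K Q hKs hQs, hτ]
      ring
    have h := sum4_le hn hX0 (Q := Q)
      (y := fun i j k l => b i j k l - (K i j * K k l + K i k * K j l + K i l * K j k))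
      (c := 10 * X ^ 8 * δ) (by positivity) hQ B5
    have e3 : ∑ i, ∑ j, ∑ k, ∑ l, Q i j * Q k l *
        (b i j k l - (K i j * K k l + K i k * K j l + K i l * K j k)) =
        ∑ i, ∑ j, ∑ k, ∑ l, Q i j * Q k l * b i j k l - ∑ i, ∑ j, ∑ k, ∑ l,
        Q i j * Q k l * (K i j * K k l + K i k * K j l + K i l * K j k) := by
      simp only [mul_sub, Finset.sum_sub_distrib]
    rw [e3] at h
    rw [e1, e2, ← mul_sub, abs_mul, abs_of_pos (by norm_num : (0 : ℝ) < 1 / 4)]
    have h5 : 0 ≤ X ^ 14 * δ := by positivity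
    calc 1 / 4 * |_| ≤ 1 / 4 * (X ^ 6 * (10 * X ^ 8 * δ)) := by gcongr
      _ = 10 / 4 * (X ^ 14 * δ) := by ring
      _ ≤ 3 * X ^ 14 * δ := by linarith
  have hqE : |β * EE P q| ≤ 1 / 2 * X ^ 5 := by
    have b1 := Eb q (1 / 2 * X ^ 3) 2 (by norm_num) (by positivity) hqb
    rw [habs]
    calc β * |EE P q| ≤ β * (1 / 2 * X ^ 3 * (X * δ) ^ 2) := by gcongr
      _ = 1 / 2 * X ^ 5 * (β * δ ^ 2) := by ring
      _ = 1 / 2 * X ^ 5 := by rw [hβδ, mul_one]
  have hτb : |τ| ≤ 1 / 2 * X ^ 5 := by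
    rw [hτ, abs_mul, abs_of_pos (by norm_num : (0 : ℝ) < 1 / 2)]
    have h := sum2_le hn hX0 (Q := Q) (y := fun i j => K i j) (c := X) hX0 hQ hK
    calc 1 / 2 * |∑ i, ∑ j, Q i j * K i j| ≤ 1 / 2 * (X ^ 3 * X) := by gcongr
      _ = 1 / 2 * X ^ 4 := by ring
      _ ≤ 1 / 2 * X ^ 5 := by
        have := pow_le_pow_right₀ hX (show 4 ≤ 5 by norm_num)
        linarith
  have B8 : |(β * EE P q) ^ 2 - τ ^ 2| ≤ X ^ 14 * δ := by
    have e : (β * EE P q) ^ 2 - τ ^ 2 = (β * EE P q - τ) * (β * EE P q + τ) := by ring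
    rw [e, abs_mul]
    have h : |β * EE P q + τ| ≤ X ^ 5 := (abs_add_le _ _).trans (by linarith)
    calc |β * EE P q - τ| * |β * EE P q + τ| ≤ X ^ 9 * δ * X ^ 5 :=
          mul_le_mul B6 h (abs_nonneg _) (by positivity)
      _ = X ^ 14 * δ := by ring
  -- the first derivative
  set d : C(Ω, ℝ) := s1 - q with hd
  have hdb : ∀ x, |d x| ≤ X * r x ^ 3 := by
    intro x
    rw [hd, ContinuousMap.sub_apply, hqx Q x]
    exact hs1 x
  have hEd : |β * EE P d| ≤ X ^ 4 * δ := by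
    have b1 := Eb d X 3 (by norm_num) hX0 hdb
    rw [habs]
    calc β * |EE P d| ≤ β * (X * (X * δ) ^ 3) := by gcongr
      _ = X ^ 4 * δ * (β * δ ^ 2) := by ring
      _ = X ^ 4 * δ := by rw [hβδ, mul_one]
  have hs1q : EE P s1 = EE P d + EE P q := by
    rw [hd, map_sub]
    ring
  have B9 : |β ^ 2 * EE P (s1 ^ 2) - β ^ 2 * EE P (q ^ 2)| ≤ 2 * X ^ 9 * δ := by
    have e1 : s1 ^ 2 = q ^ 2 + (d * q + d * q) + d * d := by
      rw [hd]
      ring
    have e2 : β ^ 2 * EE P (s1 ^ 2) - β ^ 2 * EE P (q ^ 2) =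
        β ^ 2 * EE P (d * q + d * q) + β ^ 2 * EE P (d * d) := by
      rw [e1, map_add, map_add]
      ring
    have b1 := Eb (d * q + d * q) (X ^ 4) 5 (by norm_num) (by positivity) (fun x => by
      have t1 : |d x * q x| ≤ X * r x ^ 3 * (1 / 2 * X ^ 3 * r x ^ 2) := by
        rw [abs_mul]
        exact mul_le_mul (hdb x) (hqb x) (abs_nonneg _) (by have := hr0 x; positivity)
      rw [ContinuousMap.add_apply, ContinuousMap.mul_apply]
      calc |d x * q x + d x * q x| ≤ |d x * q x| + |d x * q x| := abs_add_le _ _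
        _ ≤ X * r x ^ 3 * (1 / 2 * X ^ 3 * r x ^ 2) + X * r x ^ 3 * (1 / 2 * X ^ 3 * r x ^ 2) := by
            gcongr
        _ = X ^ 4 * r x ^ 5 := by ring)
    have b2 := Eb (d * d) (X ^ 2) 6 (by norm_num) (by positivity) (fun x => by
      rw [ContinuousMap.mul_apply, abs_mul]
      calc |d x| * |d x| ≤ X * r x ^ 3 * (X * r x ^ 3) :=
            mul_le_mul (hdb x) (hdb x) (abs_nonneg _) (by have := hr0 x; positivity)
        _ = X ^ 2 * r x ^ 6 := by ring)
    rw [e2]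
    have hδ2 : δ ^ 2 ≤ δ := by nlinarith
    calc |β ^ 2 * EE P (d * q + d * q) + β ^ 2 * EE P (d * d)| ≤
          |β ^ 2 * EE P (d * q + d * q)| + |β ^ 2 * EE P (d * d)| := abs_add_le _ _
      _ ≤ β ^ 2 * (X ^ 4 * (X * δ) ^ 5) + β ^ 2 * (X ^ 2 * (X * δ) ^ 6) := by
          rw [habs2, habs2]
          gcongr
      _ = X ^ 9 * δ * (β * δ ^ 2) ^ 2 + X ^ 8 * δ ^ 2 * (β * δ ^ 2) ^ 2 := by ring
      _ = X ^ 9 * δ + X ^ 8 * δ ^ 2 := by rw [hβδ, one_pow, mul_one, mul_one]
      _ ≤ X ^ 9 * δ + X ^ 9 * δ := by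
          have h5 : X ^ 8 * δ ^ 2 ≤ X ^ 8 * δ := by gcongr
          have h6 := pw (show 8 ≤ 9 by norm_num)
          linarith
      _ = 2 * X ^ 9 * δ := by ring
  have B10 : |(β * EE P s1) ^ 2 - (β * EE P q) ^ 2| ≤ 2 * X ^ 9 * δ := by
    have e : (β * EE P s1) ^ 2 - (β * EE P q) ^ 2 =
        (β * EE P d) * (β * EE P d + (β * EE P q + β * EE P q)) := by
      rw [hs1q]
      ring
    rw [e, abs_mul]
    have h45 : X ^ 4 * δ ≤ X ^ 5 := by
      calc X ^ 4 * δ ≤ X ^ 4 * 1 := by gcongr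
        _ ≤ X ^ 5 := by
          rw [mul_one]
          exact pow_le_pow_right₀ hX (by norm_num)
    have h : |β * EE P d + (β * EE P q + β * EE P q)| ≤ 2 * X ^ 5 := by
      refine (abs_add_le _ _).trans ?_
      have := abs_add_le (β * EE P q) (β * EE P q)
      linarith
    calc |β * EE P d| * |β * EE P d + (β * EE P q + β * EE P q)| ≤ X ^ 4 * δ * (2 * X ^ 5) :=
          mul_le_mul hEd h (abs_nonneg _) (by positivity)
      _ = 2 * X ^ 9 * δ := by ring
  -- the second derivative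
  have B11 : |β * EE P s2 - β * s0 - 1 / 2 * ∑ i, ∑ j, R i j * a i j| ≤ X ^ 4 * δ := by
    set e : C(Ω, ℝ) := s2 - s0 • (1 : C(Ω, ℝ)) - (1 / 2 : ℝ) • ∑ i, ∑ j, R i j • (A i * A j) with he
    have heb : ∀ x, |e x| ≤ X * r x ^ 3 := by
      intro x
      rw [he, ContinuousMap.sub_apply, hqx R x, ContinuousMap.sub_apply, ContinuousMap.smul_apply,
        ContinuousMap.one_apply, smul_eq_mul, mul_one]
      exact hs2 x
    have b1 := Eb e X 3 (by norm_num) hX0 heb
    have e1 : β * EE P s2 - β * s0 - 1 / 2 * ∑ i, ∑ j, R i j * a i j = β * EE P e := by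
      rw [← hquad R, he, map_sub, map_sub, map_smul (EE P) s0, EE_one, smul_eq_mul]
      ring
    rw [e1, habs]
    calc β * |EE P e| ≤ β * (X * (X * δ) ^ 3) := by gcongr
      _ = X ^ 4 * δ * (β * δ ^ 2) := by ring
      _ = X ^ 4 * δ := by rw [hβδ, mul_one]
  have B12 := hqd R hR
  have hT := trace_KR K R hRs
  rw [hT]
  have c1 := abs_le.1 B7
  have c2 := abs_le.1 B8
  have c3 := abs_le.1 B9
  have c4 := abs_le.1 B10
  have c5 := abs_le.1 B11
  have c6 := abs_le.1 B12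
  have d1 := pw (show 9 ≤ 14 by norm_num)
  have d2 := pw (show 4 ≤ 14 by norm_num)
  rw [abs_le]
  constructor <;> nlinarith [c1.1, c1.2, c2.1, c2.2, c3.1, c3.2, c4.1, c4.2, c5.1, c5.2, c6.1, c6.2]

end core

theorem af_abs : S_ABS := by
  refine ⟨10, 14, by norm_num, ?_⟩
  intro Ω ι _ _ _ _ P _ _ _ H Q R A g dA r s1 s2 β M m s0 hcA hcg hcdA hcr hcs1 hcs2 hβ hM hm hn hH hHs
    hK hQ hR hQs hRs hr0 hr hA hg hdA h1 h3 hs1 hs2
  have hβ0 : 0 < β := by linarith
  have hX : 1 ≤ M * m := by nlinarith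
  have hMX : M ≤ M * m := by nlinarith
  have hmX : m ≤ M * m := by nlinarith
  set δ : ℝ := 1 / Real.sqrt β with hδ
  have hsβ : 1 ≤ Real.sqrt β := by
    rw [Real.one_le_sqrt]
    exact hβ
  have hδ0 : 0 ≤ δ := by positivity
  have hδ1 : δ ≤ 1 := by
    rw [hδ, div_le_one (by linarith)]
    exact hsβ
  have hβδ : β * δ ^ 2 = 1 := by
    rw [hδ, div_pow, Real.sq_sqrt hβ0.le, one_pow]
    field_simp
  have hsq : Real.sqrt (m / β) ≤ M * m * δ := by
    rw [Real.sqrt_div (by linarith), hδ, mul_one_div]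
    gcongr
    have : Real.sqrt m ≤ m := by
      rw [Real.sqrt_le_left (by linarith)]
      nlinarith
    linarith
  have hKH : H⁻¹ * H = 1 := Matrix.nonsing_inv_mul H hH
  have hKs : (H⁻¹)ᵀ = H⁻¹ := by
    rw [Matrix.transpose_nonsing_inv, hHs]
  have key := core P H H⁻¹ Q R (fun i => ⟨A i, hcA i⟩) (fun i => ⟨g i, hcg i⟩)
    (fun i j => ⟨dA i j, hcdA i j⟩) ⟨r, hcr⟩ ⟨s1, hcs1⟩ ⟨s2, hcs2⟩ β (M * m) δ s0 hX hδ0 hδ1 hβ0.le
    hβδ (hn.trans hMX) hKH hKs (fun i j => (hK i j).trans hMX) (fun i j => (hQ i j).trans hMX)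
    (fun i j => (hR i j).trans hMX) hQs hRs hr0
    (fun p hp => (hr p hp).trans (by
      have := Real.sqrt_nonneg (m / β)
      gcongr)) hA
    (fun i x => (hg i x).trans (mul_le_mul_of_nonneg_right hMX (pow_nonneg (hr0 x) _)))
    (fun i j x => (hdA i j x).trans (mul_le_mul_of_nonneg_right hMX (hr0 x)))
    h1 h3 (fun x => (hs1 x).trans (mul_le_mul_of_nonneg_right hMX (pow_nonneg (hr0 x) _)))
    (fun x => (hs2 x).trans (mul_le_mul_of_nonneg_right hMX (pow_nonneg (hr0 x) _)))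
  have e : 10 * (M * m) ^ 14 / Real.sqrt β = 10 * (M * m) ^ 14 * δ := by
    rw [hδ]
    ring
  rw [e]
  exact key

end Pool.Agent.Y220.AF
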